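import Mathlib

/-! Definitions for the girth construction of helper967 (H967G).
`K` is a field with a ring endomorphism `σ` of order three (in the application `|K| = q^3`, `σ x = x^q`).
-/

open Polynomial Matrix

namespace Girth967

variable {K : Type*} [Field K]

/-- `u` is a nonzero vector of the conic `u² + σ(u)² + σ²(u)² = 0`. -/
def Iso (σ : K →+* K) (u : K) : Prop := u ≠ 0 ∧ u ^ 2 + (σ u) ^ 2 + (σ (σ u)) ^ 2 = 0

/-- the vector of conjugates -/
def vec (σ : K →+* K) (u : K) : Fin 3 → K := ![u, σ u, σ (σ u)]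

/-- `δ(u,w)`: nonzero iff the two lines are different -/
def dl (σ : K →+* K) (u w : K) : K := (σ u) ^ 2 * (σ (σ w)) ^ 2 - (σ (σ u)) ^ 2 * (σ w) ^ 2

def nrm (σ : K →+* K) (u : K) : K := u * σ u * σ (σ u)

def kap (σ : K →+* K) (u w : K) : K := -(dl σ u w) / (nrm σ u * nrm σ w)

/-- the matrix of `z` (with `z³ = X`) -/
noncomputable def Zm (K : Type*) [Field K] : Matrix (Fin 3) (Fin 3) K[X] := !![0, 1, 0; 0, 0, 1; X, 0, 0]

/-- `M` is the matrix of an element of the Ore polynomial ring -/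
def Shape (σ : K →+* K) (M : Matrix (Fin 3) (Fin 3) K[X]) : Prop :=
  Zm K * M = (M.map (Polynomial.map σ)) * Zm K

/-- the matrix of `g_u = (σ u - u z)/σ² u` -/
noncomputable def Gm (σ : K →+* K) (u : K) : Matrix (Fin 3) (Fin 3) K[X] :=
  !![C (σ u / σ (σ u)), -C (u / σ (σ u)), 0;
     0, C (σ (σ u) / u), -C (σ u / u);
     -C (σ (σ u) / σ u) * X, 0, C (u / σ u)]

/-- `E u w = (1-X) g_u⁻¹ g_w` -/
noncomputable def Em (σ : K →+* K) (u w : K) : Matrix (Fin 3) (Fin 3) K[X] :=
  (Gm σ u).adjugate * Gm σ w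

/-- `F_m = E(u₀,w₀) E(u₁,w₁) ... E(u_{m-1},w_{m-1})` -/
noncomputable def Fm (σ : K →+* K) (u w : ℕ → K) : ℕ → Matrix (Fin 3) (Fin 3) K[X]
  | 0 => 1
  | (m + 1) => Fm σ u w m * Em σ (u m) (w m)

/-- `F'_m = E(w_{m-1},u_{m-1}) ... E(w₀,u₀)` -/
noncomputable def Fm' (σ : K →+* K) (u w : ℕ → K) : ℕ → Matrix (Fin 3) (Fin 3) K[X]
  | 0 => 1
  | (m + 1) => Em σ (w m) (u m) * Fm' σ u w m


theorem Shape_mul (σ : K →+* K) {M N : Matrix (Fin 3) (Fin 3) K[X]} (hM : Shape σ M) (hN : Shape σ N) :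
    Shape σ (M * N) := by
  unfold Shape at *
  have h : (M * N).map (Polynomial.map σ) = M.map (Polynomial.map σ) * N.map (Polynomial.map σ) := by
    exact Matrix.map_mul (f := Polynomial.mapRingHom σ) (L := M) (M := N)
  rw [h, ← Matrix.mul_assoc, hM, Matrix.mul_assoc, hN, Matrix.mul_assoc]

theorem Shape_one (σ : K →+* K) : Shape σ (1 : Matrix (Fin 3) (Fin 3) K[X]) := by
  unfold Shape
  have h : (1 : Matrix (Fin 3) (Fin 3) K[X]).map (Polynomial.map σ) = 1 := by
    exact Matrix.map_one (Polynomial.mapRingHom σ) (map_zero _) (map_one _) (n := Fin 3)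
  rw [h]; simp

theorem Shape_sub (σ : K →+* K) {M N : Matrix (Fin 3) (Fin 3) K[X]} (hM : Shape σ M) (hN : Shape σ N) :
    Shape σ (M - N) := by
  unfold Shape at *
  have h : (M - N).map (Polynomial.map σ) = M.map (Polynomial.map σ) - N.map (Polynomial.map σ) := by
    ext i j : 2
    simp
  rw [h, Matrix.mul_sub, Matrix.sub_mul, hM, hN]

theorem Shape_smul (σ : K →+* K) (p : K[X]) (hp : p.map σ = p) {M : Matrix (Fin 3) (Fin 3) K[X]} (hM : Shape σ M) :
    Shape σ (p • M) := by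
  unfold Shape at *
  have h : (p • M).map (Polynomial.map σ) = p • M.map (Polynomial.map σ) := by
    ext i j : 2
    simp [hp]
  rw [h, Matrix.mul_smul, Matrix.smul_mul, hM]

theorem Shape_scalar (σ : K →+* K) (p : K[X]) (hp : p.map σ = p) :
    Shape σ (p • (1 : Matrix (Fin 3) (Fin 3) K[X])) := Shape_smul σ p hp (Shape_one σ)

theorem Zm_det : (Zm K).det = X := by
  simp [Zm, Matrix.det_fin_three]

theorem Shape_adjugate (σ : K →+* K) {M : Matrix (Fin 3) (Fin 3) K[X]} (hM : Shape σ M) :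
    Shape σ M.adjugate := by
  unfold Shape at *
  have h0 : (M.adjugate).map (Polynomial.map σ) = (M.map (Polynomial.map σ)).adjugate := by
    have := RingHom.map_adjugate (Polynomial.mapRingHom σ) M
    simpa [RingHom.mapMatrix_apply] using this
  have h1 := congrArg Matrix.adjugate hM
  rw [Matrix.adjugate_mul_distrib, Matrix.adjugate_mul_distrib] at h1
  have h2 : Zm K * (M.adjugate * (Zm K).adjugate) * Zm K
      = Zm K * ((Zm K).adjugate * (M.map (Polynomial.map σ)).adjugate) * Zm K := by rw [h1]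
  have h3 : Zm K * (M.adjugate * (Zm K).adjugate) * Zm K = (X : K[X]) • (Zm K * M.adjugate) := by
    rw [Matrix.mul_assoc, Matrix.mul_assoc, Matrix.adjugate_mul, Zm_det]; simp
  have h4 : Zm K * ((Zm K).adjugate * (M.map (Polynomial.map σ)).adjugate) * Zm K
      = (X : K[X]) • ((M.map (Polynomial.map σ)).adjugate * Zm K) := by
    rw [← Matrix.mul_assoc (Zm K), Matrix.mul_adjugate, Zm_det]; simp
  rw [h3, h4] at h2
  rw [h0]
  exact smul_right_injective _ (X_ne_zero) h2


/-! ### the group and the graph -/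

/-- the matrix of the right shape with first row `a` -/
noncomputable def shp (σ : K →+* K) (a : Fin 3 → K[X]) : Matrix (Fin 3) (Fin 3) K[X] :=
  !![a 0, a 1, a 2;
     X * (a 2).map σ, (a 0).map σ, (a 1).map σ;
     X * ((a 1).map σ).map σ, X * ((a 2).map σ).map σ, ((a 0).map σ).map σ]

/-- reduced first rows of matrices of the right shape and determinant one modulo `Q^n` -/
def Rep (σ : K →+* K) (Q : K[X]) (n : ℕ) : Set (Fin 3 → K[X]) :=
  {a | (∀ i, (a i).degree < (Q ^ n).degree) ∧ Q ^ n ∣ (shp σ a).det - 1}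

/-- the quotient ring `K[X]/(Q^n)` -/
abbrev RQ (Q : K[X]) (n : ℕ) : Type _ := K[X] ⧸ Ideal.span ({Q ^ n} : Set K[X])

/-- the reduction map `K[X] → K[X]/(Q^n)` -/
noncomputable def mkQ (Q : K[X]) (n : ℕ) : K[X] →+* RQ Q n := Ideal.Quotient.mk _

/-- the group of matrices of determinant one over `K[X]/(Q^n)` which are reductions of matrices of the right shape -/
noncomputable def HG (σ : K →+* K) (Q : K[X]) (n : ℕ) : Subgroup (Matrix.SpecialLinearGroup (Fin 3) (RQ Q n)) where
  carrier := {M | ∃ A : Matrix (Fin 3) (Fin 3) K[X], Shape σ A ∧ (M : Matrix (Fin 3) (Fin 3) (RQ Q n)) = A.map (mkQ Q n)}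
  mul_mem' := by
    rintro M N ⟨A, hA, hM⟩ ⟨B, hB, hN⟩
    refine ⟨A * B, Shape_mul σ hA hB, ?_⟩
    refine (Matrix.SpecialLinearGroup.coe_mul M N).trans ?_
    rw [Matrix.map_mul, ← hM, ← hN]
  one_mem' := ⟨1, Shape_one σ, Matrix.SpecialLinearGroup.coe_one.trans
    (Matrix.map_one (mkQ Q n) (map_zero _) (map_one _)).symm⟩
  inv_mem' := by
    rintro M ⟨A, hA, hM⟩
    refine ⟨A.adjugate, Shape_adjugate σ hA, ?_⟩
    refine (Matrix.SpecialLinearGroup.coe_inv M).trans ?_
    have h1 := RingHom.map_adjugate (mkQ Q n) A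
    rw [RingHom.mapMatrix_apply, RingHom.mapMatrix_apply] at h1
    exact (congrArg Matrix.adjugate hM).trans h1.symm

/-- the bipartite Haar graph of a family of elements of a group: `g` on the left is joined to `g * c i` on the right -/
def haar {G ι : Type*} [Group G] (c : ι → G) : SimpleGraph (G ⊕ G) :=
  SimpleGraph.fromRel (fun x y => ∃ g i, x = Sum.inl g ∧ y = Sum.inr (g * c i))

end Girth967
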