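import Mathlib
import Pool.Agent.H967G.Defs
import Pool.Agent.H967G.S.A1
import Pool.Agent.H967G.S.A10
import Pool.Agent.H967G.S.A2
import Pool.Agent.H967G.S.A4
import Pool.Agent.H967G.S.A5
import Pool.Agent.H967G.S.A6
import Pool.Agent.H967G.S.A8
import Pool.Agent.H967G.S.A9
import Pool.Agent.H967G.S.B1
import Pool.Agent.H967G.S.B2
import Pool.Agent.H967G.S.B34
import Pool.Agent.H967G.S.C1
import Pool.Agent.H967G.S.C2
import Pool.Agent.H967G.S.C3
import Pool.Agent.H967G.S.C5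
import Pool.Agent.H967G.S.C6
import Pool.Agent.H967G.S.D1
import Pool.Agent.H967G.S.D2
open Polynomial Matrix
namespace Girth967
variable {K : Type*} [Field K]

theorem eval_one_reflect (p : K[X]) (m : ℕ) (hp : p.natDegree ≤ m) : (p.reflect m).eval 1 = p.eval 1 := by
  let _ : Invertible (1 : K) := invertibleOne
  have := Polynomial.eval₂_reflect_mul_pow (RingHom.id K) (1 : K) m p hp
  simpa [Polynomial.eval₂_id] using this

/-- the main theorem on words -/
theorem main_word (σ : K →+* K) (hσ : ∀ x, σ (σ (σ x)) = x) (Q : K[X]) (hQ0 : Q.coeff 0 ≠ 0)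
    (hQX : IsCoprime Q (1 - X)) (hQr : IsCoprime Q Q.reverse) (n : ℕ)
    (u w : ℕ → K) (m : ℕ) (hm : 0 < m)
    (hu : ∀ i < m, Iso σ (u i)) (hw : ∀ i < m, Iso σ (w i))
    (h1 : ∀ i < m, dl σ (u i) (w i) ≠ 0) (h2 : ∀ i, i + 1 < m → dl σ (w i) (u (i + 1)) ≠ 0)
    (hdvd : ∀ i j, Q ^ n ∣ (Fm σ u w m - ((1 - X : K[X]) ^ m) • (1 : Matrix (Fin 3) (Fin 3) K[X])) i j) :
    6 * n * Q.natDegree + 1 ≤ m := by
  set F := Fm σ u w m with hF
  set F' := Fm' σ u w m with hF'
  set Δ : K[X] := (1 - X) ^ m with hΔ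
  have hdet := det_sub_scalar F F' Δ (Fm_det σ hσ u w m hu hw) (Fm_adj σ hσ u w m hu hw)
  -- F - Δ ≠ 0
  have hΔ1 : Δ.eval 1 = 0 := by simp [hΔ, hm.ne']
  have hne : F - Δ • (1 : Matrix (Fin 3) (Fin 3) K[X]) ≠ 0 := by
    intro h0
    apply Fm_eval_one σ hσ (fun a b ha hb => Em_eq σ hσ a b ha hb) (fun a b ha hb hd => dot_ne_zero σ hσ a b ha hb hd) u w m hm hu hw h1 h2
    have : F = Δ • (1 : Matrix (Fin 3) (Fin 3) K[X]) := sub_eq_zero.mp h0
    ext i j
    rw [← hF, this]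
    simp [Matrix.map_apply, Matrix.smul_apply, hΔ1]
  have hshF : ∀ k, Shape σ (Fm σ u w k) := by
    intro k
    induction k with
    | zero => exact Shape_one σ
    | succ k ih => exact Shape_mul σ ih (Shape_mul σ (Shape_adjugate σ (Shape_Gm σ hσ _)) (Shape_Gm σ hσ _))
  have hsh : Shape σ (F - Δ • (1 : Matrix (Fin 3) (Fin 3) K[X])) := by
    apply Shape_sub σ (hshF m)
    apply Shape_scalar
    simp [hΔ]
  have hdetne := Shape_det_ne_zero σ hσ hsh hne
  set T := F.trace - F'.trace with hT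
  have hTne : T ≠ 0 := by
    intro h; rw [hdet, h, mul_zero] at hdetne; exact hdetne rfl
  -- Q^(3n) ∣ det
  have hdvd3 : Q ^ (3 * n) ∣ (F - Δ • (1 : Matrix (Fin 3) (Fin 3) K[X])).det := by
    rw [Matrix.det_fin_three]
    have e : Q ^ (3 * n) = Q ^ n * Q ^ n * Q ^ n := by ring
    rw [e]
    have key : ∀ a b c d e f : Fin 3, Q ^ n * Q ^ n * Q ^ n ∣
        (F - Δ • (1 : Matrix (Fin 3) (Fin 3) K[X])) a b * (F - Δ • (1 : Matrix (Fin 3) (Fin 3) K[X])) c d
          * (F - Δ • (1 : Matrix (Fin 3) (Fin 3) K[X])) e f := fun a b c d e f =>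
      mul_dvd_mul (mul_dvd_mul (hdvd a b) (hdvd c d)) (hdvd e f)
    refine dvd_sub (dvd_add (dvd_add (dvd_sub (dvd_sub ?_ ?_) ?_) ?_) ?_) ?_
    all_goals exact key _ _ _ _ _ _
  have hcop : IsCoprime (Q ^ (3 * n)) (Δ ^ 2) := by
    apply IsCoprime.pow
    rw [hΔ]
    exact (hQX.pow_right)
  have hdvdT : Q ^ (3 * n) ∣ T := by
    rw [hdet] at hdvd3
    exact hcop.dvd_of_dvd_mul_left hdvd3
  have hrefl' : ∀ i j, F' i j = (-1) ^ m * (F j i).reflect m := Fm'_reflect σ hσ (fun a b ha hb => Em_eq σ hσ a b ha hb) u w m hu hw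
  have htrF' : F'.trace = (-1) ^ m * F.trace.reflect m := by
    simp only [Matrix.trace, Matrix.diag, Fin.sum_univ_three, hrefl', Polynomial.reflect_add]
    ring
  have htr : ∀ M : Matrix (Fin 3) (Fin 3) K[X], (∀ i j, (M i j).natDegree ≤ m) → M.trace.natDegree ≤ m := by
    intro M hM
    simp only [Matrix.trace, Matrix.diag, Fin.sum_univ_three]
    exact (Polynomial.natDegree_add_le_of_degree_le (Polynomial.natDegree_add_le_of_degree_le (hM _ _) (hM _ _)) (hM _ _))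
  have hTdeg : T.natDegree ≤ m := by
    have hF'deg : ∀ i j, (F' i j).natDegree ≤ m := by
      intro i j
      rw [hrefl']
      refine (Polynomial.natDegree_mul_le).trans ?_
      have h1 : ((-1 : K[X]) ^ m).natDegree = 0 := by
        rcases neg_one_pow_eq_or K[X] m with h | h <;> rw [h] <;> simp
      rw [h1, zero_add]
      have := Polynomial.natDegree_reflect_le (p := F j i) (N := m)
      exact this.trans (max_le le_rfl (Fm_natDegree σ hσ (fun a b ha hb => Em_eq σ hσ a b ha hb) u w m hu hw j i))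
    have := (Polynomial.natDegree_sub_le_of_le (htr F (fun i j => Fm_natDegree σ hσ (fun a b ha hb => Em_eq σ hσ a b ha hb) u w m hu hw i j)) (htr F' hF'deg))
    rwa [max_self] at this
  have hrefl2 : (F.trace.reflect m).reflect m = F.trace := by
    simp
  have hreflT : T = (-(-1) ^ m) * T.reflect m := by
    have h1 : T.reflect m = F.trace.reflect m - F'.trace.reflect m := by
      rw [hT, Polynomial.reflect_sub]
    rw [h1, htrF']
    have h2 : ((-1 : K[X]) ^ m * F.trace.reflect m).reflect m = (-1) ^ m * F.trace := by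
      rcases neg_one_pow_eq_or K[X] m with h | h
      · rw [h, one_mul, one_mul, hrefl2]
      · rw [h, neg_one_mul, neg_one_mul, Polynomial.reflect_neg, hrefl2]
    rw [h2, hT, htrF']
    rcases neg_one_pow_eq_or K[X] m with h | h <;> rw [h] <;> ring
  have hε : (-(-1 : K[X]) ^ m) = 1 ∨ (-(-1 : K[X]) ^ m) = -1 := by
    rcases neg_one_pow_eq_or K[X] m with h | h
    · right; rw [h]
    · left; rw [h]; ring
  obtain ⟨hA, hB⟩ := palindrome_dvd T Q m (3 * n) _ hε hTne hTdeg hreflT hQ0 hQX hQr hdvdT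
  have hA' : 6 * n * Q.natDegree ≤ m := by
    have : 2 * (3 * n) * Q.natDegree = 6 * n * Q.natDegree := by ring
    omega
  rcases Nat.even_or_odd m with hev | hod
  · have hT1 : T.eval 1 = 0 := by
      have : T.eval 1 = F.trace.eval 1 - F'.trace.eval 1 := by rw [hT, Polynomial.eval_sub]
      rw [this, htrF', hev.neg_one_pow, one_mul]
      have h3 : (F.trace.reflect m).eval 1 = F.trace.eval 1 :=
        eval_one_reflect _ _ (htr F (fun i j => Fm_natDegree σ hσ (fun a b ha hb => Em_eq σ hσ a b ha hb) u w m hu hw i j))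
      rw [h3, sub_self]
    have := hB hT1
    have e : 2 * (3 * n) * Q.natDegree = 6 * n * Q.natDegree := by ring
    omega
  · obtain ⟨k, hk⟩ := hod
    have : 6 * n * Q.natDegree = 2 * (3 * n * Q.natDegree) := by ring
    omega

theorem Rep_count [Fintype K] [DecidableEq K] (q : ℕ) (hq : IsPrimePow q) (hK : Fintype.card K = q ^ 3)
    (σ : K →+* K) (hσ : ∀ x, σ x = x ^ q)
    (htr : (Finset.univ.filter fun x : K => x + σ x + σ (σ x) = 0).card = q ^ 2)
    (Q : K[X]) (hQ : Q.Monic) (hQσ : Q.map σ = Q) (hd : 0 < Q.natDegree) (n : ℕ) (hn : 1 ≤ n) :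
    (Rep σ Q n).Finite ∧ (q - 1) * (Rep σ Q n).ncard ≤ q ^ ((8 * n + 1) * Q.natDegree) := by
  induction n, hn using Nat.le_induction with
  | base =>
    obtain ⟨h1, h2⟩ := card_Rep_one q hq hK σ hσ Q hQ hQσ hd
    exact ⟨h1, by simpa using h2⟩
  | succ n hn ih =>
    obtain ⟨h1, h2⟩ := ih
    obtain ⟨h3, h4⟩ := card_Rep_succ q hq hK σ hσ htr Q hQ hQσ hd n hn h1
    refine ⟨h3, ?_⟩
    calc (q - 1) * (Rep σ Q (n + 1)).ncard ≤ (q - 1) * (q ^ (8 * Q.natDegree) * (Rep σ Q n).ncard) :=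
          Nat.mul_le_mul_left _ h4
      _ = q ^ (8 * Q.natDegree) * ((q - 1) * (Rep σ Q n).ncard) := by ring
      _ ≤ q ^ (8 * Q.natDegree) * q ^ ((8 * n + 1) * Q.natDegree) := Nat.mul_le_mul_left _ h2
      _ = q ^ ((8 * (n + 1) + 1) * Q.natDegree) := by rw [← pow_add]; congr 1; ring

theorem word_prod (σ : K →+* K) (Q v : K[X]) (n : ℕ) {ι : Type*} (c : ι → HG σ Q n) (f : ι → K)
    (hc : ∀ u w : ι, (((c u)⁻¹ * c w : HG σ Q n) : Matrix (Fin 3) (Fin 3) (RQ Q n)) = (v • Em σ (f u) (f w)).map (mkQ Q n))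
    (a b : ℕ → ι) (m : ℕ) :
    ((((List.range m).map (fun i => (c (a i))⁻¹ * c (b i))).prod : HG σ Q n) : Matrix (Fin 3) (Fin 3) (RQ Q n))
      = (v ^ m • Fm σ (fun i => f (a i)) (fun i => f (b i)) m).map (mkQ Q n) := by
  induction m with
  | zero =>
    simp only [List.range_zero, List.map_nil, List.prod_nil, pow_zero, one_smul, Fm]
    exact (Matrix.map_one (mkQ Q n) (map_zero _) (map_one _)).symm
  | succ m ih =>
    rw [List.prod_range_succ]
    have h1 : ((((List.range m).map (fun i => (c (a i))⁻¹ * c (b i))).prod * ((c (a m))⁻¹ * c (b m)) : HG σ Q n) :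
        Matrix (Fin 3) (Fin 3) (RQ Q n)) =
        ((((List.range m).map (fun i => (c (a i))⁻¹ * c (b i))).prod : HG σ Q n) : Matrix (Fin 3) (Fin 3) (RQ Q n)) *
        ((((c (a m))⁻¹ * c (b m)) : HG σ Q n) : Matrix (Fin 3) (Fin 3) (RQ Q n)) := rfl
    rw [h1, ih, hc, ← Matrix.map_mul]
    congr 1
    rw [Fm, Matrix.smul_mul, Matrix.mul_smul, smul_smul, pow_succ]

theorem word_dvd (Q v : K[X]) (n : ℕ) (hv1 : Q ^ n ∣ (1 - X) * v - 1) (F : Matrix (Fin 3) (Fin 3) K[X]) (m : ℕ)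
    (h : (v ^ m • F).map (mkQ Q n) = 1) (i j : Fin 3) :
    Q ^ n ∣ (F - ((1 - X : K[X]) ^ m) • (1 : Matrix (Fin 3) (Fin 3) K[X])) i j := by
  have h1 : mkQ Q n (v ^ m * F i j) = (1 : Matrix (Fin 3) (Fin 3) (RQ Q n)) i j := by
    rw [← h]; simp [Matrix.map_apply, Matrix.smul_apply]
  have h2 : (1 : Matrix (Fin 3) (Fin 3) (RQ Q n)) i j = mkQ Q n ((1 : Matrix (Fin 3) (Fin 3) K[X]) i j) := by
    by_cases hij : i = j
    · subst hij; simp
    · simp [Matrix.one_apply_ne hij]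
  rw [h2] at h1
  have h3 : Q ^ n ∣ v ^ m * F i j - (1 : Matrix (Fin 3) (Fin 3) K[X]) i j := by
    have := Ideal.Quotient.eq.mp h1
    exact Ideal.mem_span_singleton.mp this
  have h4 : Q ^ n ∣ ((1 - X) * v) ^ m - 1 := by
    have := sub_dvd_pow_sub_pow ((1 - X) * v) 1 m
    rw [one_pow] at this
    exact hv1.trans this
  have e : (F - ((1 - X : K[X]) ^ m) • (1 : Matrix (Fin 3) (Fin 3) K[X])) i j
      = (1 - X) ^ m * (v ^ m * F i j - (1 : Matrix (Fin 3) (Fin 3) K[X]) i j) - (((1 - X) * v) ^ m - 1) * F i j := by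
    simp only [Matrix.sub_apply, Matrix.smul_apply, smul_eq_mul]
    rw [mul_pow]; ring
  rw [e]
  exact dvd_sub (h3.mul_left _) (h4.mul_right _)

theorem graph_exists (K : Type) [Field K] [Fintype K] [DecidableEq K] (q : ℕ) (hq : IsPrimePow q)
    (hK : Fintype.card K = q ^ 3) (σ : K →+* K) (hσ : ∀ x, σ x = x ^ q) (Q v1 : K[X]) (hQ : Q.Monic)
    (hd : 0 < Q.natDegree) (hQσ : Q.map σ = Q) (hQ0 : Q.coeff 0 ≠ 0)
    (hQr : IsCoprime Q Q.reverse) (hv1 : v1.map σ = v1) (hv : (1 - X) * v1 = 1 + Q) (n : ℕ) (hn : 1 ≤ n) :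
    ∃ (V : Type) (_ : Fintype V) (_ : DecidableEq V) (G : SimpleGraph V) (_ : DecidableRel G.Adj),
      Nonempty V ∧ G.IsRegularOfDegree (q + 1) ∧ ((12 * n * Q.natDegree + 2 : ℕ) : ℕ∞) ≤ G.egirth ∧
      (q - 1) * Fintype.card V ≤ 2 * q ^ ((8 * n + 1) * Q.natDegree) := by
  classical
  have hσ3 : ∀ x, σ (σ (σ x)) = x := by
    intro x
    rw [hσ, hσ, hσ, ← pow_mul, ← pow_mul]
    have : q * (q * q) = Fintype.card K := by rw [hK]; ring
    rw [this, FiniteField.pow_card]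
  obtain ⟨hfix, htr⟩ := card_fixed q hq hK σ hσ
  have hiso := card_iso q hq hK σ hσ htr
  obtain ⟨S, hS, hSiso, hSdl⟩ := exists_conn q hq.two_le σ hσ3 hfix hiso (fun u w hu hw => dl_eq_zero_iff σ hσ3 u w hu hw)
  have hQX : IsCoprime Q (1 - X) := ⟨-1, v1, by rw [mul_comm v1, hv]; ring⟩
  -- the inverse of 1 - X modulo Q^n
  set v : K[X] := v1 * ∑ i ∈ Finset.range n, (-Q) ^ i with hvdef
  have hvσ : v.map σ = v := by
    rw [hvdef, Polynomial.map_mul, hv1, Polynomial.map_sum]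
    simp [hQσ]
  have hvn : Q ^ n ∣ (1 - X) * v - 1 := by
    have h1 : (1 - X) * v = (1 - (-Q)) * ∑ i ∈ Finset.range n, (-Q) ^ i := by
      rw [hvdef, ← mul_assoc, hv]; ring
    have h2 := mul_neg_geom_sum (-Q) n
    rw [h1, h2, neg_pow]
    exact ⟨-(-1) ^ n, by ring⟩
  have hSne : S.Nonempty := by rw [← Finset.card_pos, hS]; omega
  obtain ⟨u₀, hu₀⟩ := hSne
  obtain ⟨c, hc⟩ := exists_gen σ hσ3 Q v n hvσ hvn u₀ (hSiso u₀ hu₀)
  -- restrict to S
  set c' : S → HG σ Q n := fun u => c ⟨u.1, hSiso u.1 u.2⟩ with hc'def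
  have hc' : ∀ u w : S, (((c' u)⁻¹ * c' w : HG σ Q n) : Matrix (Fin 3) (Fin 3) (RQ Q n))
      = (v • Em σ u.1 w.1).map (mkQ Q n) := fun u w => hc _ _
  have key : ∀ m > 0, ∀ a b : ℕ → S, (∀ i < m, a i ≠ b i) → (∀ i, i + 1 < m → b i ≠ a (i + 1)) →
      ((List.range m).map (fun i => (c' (a i))⁻¹ * c' (b i))).prod = 1 → 6 * n * Q.natDegree + 1 ≤ m := by
    intro m hm a b h1 h2 hprod
    have h3 := word_prod σ Q v n c' (fun u => u.1) hc' a b m
    rw [hprod] at h3
    have h4 : (v ^ m • Fm σ (fun i => (a i).1) (fun i => (b i).1) m).map (mkQ Q n) = 1 := h3.symm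
    have h5 := word_dvd Q v n hvn _ m h4
    refine main_word σ hσ3 Q hQ0 hQX hQr n _ _ m hm (fun i _ => hSiso _ (a i).2) (fun i _ => hSiso _ (b i).2) ?_ ?_ h5
    · intro i hi
      exact hSdl _ (a i).2 _ (b i).2 (fun h => h1 i hi (Subtype.ext h))
    · intro i hi
      exact hSdl _ (b i).2 _ (a (i + 1)).2 (fun h => h2 i hi (Subtype.ext h))
  have hinj : Function.Injective c' := by
    intro u w huw
    by_contra hne
    have := key 1 one_pos (fun _ => u) (fun _ => w) (fun i _ => hne) (fun i hi => by omega) (by simp [huw])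
    have h6 : 0 < 6 * n * Q.natDegree := by positivity
    omega
  obtain ⟨hRfin, hRcard⟩ := Rep_count q hq hK σ hσ htr Q hQ hQσ hd n hn
  obtain ⟨hfin, hcard⟩ := card_HG_le σ hσ3 Q hQ hQσ hd n hn hRfin
  let _ : Fintype (HG σ Q n) := Fintype.ofFinite _
  refine ⟨HG σ Q n ⊕ HG σ Q n, inferInstance, inferInstance, haar c', Classical.decRel _, ⟨Sum.inl 1⟩, ?_, ?_, ?_⟩
  · have := haar_regular c' hinj
    rw [Fintype.card_coe, hS] at this
    convert this
  · have := haar_egirth c' hinj (6 * n * Q.natDegree + 1) key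
    have e : 12 * n * Q.natDegree + 2 = 2 * (6 * n * Q.natDegree + 1) := by ring
    rw [e]; exact this
  · rw [Fintype.card_sum, ← Nat.card_eq_fintype_card]
    calc (q - 1) * (Nat.card (HG σ Q n) + Nat.card (HG σ Q n)) = 2 * ((q - 1) * Nat.card (HG σ Q n)) := by ring
      _ ≤ 2 * ((q - 1) * (Rep σ Q n).ncard) := by gcongr
      _ ≤ _ := by gcongr

end Girth967
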