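import Mathlib
import Pool.Agent.H967G.Main
open Polynomial Matrix
namespace Girth967
variable {K : Type*} [Field K]

/-- the element `T` attached to a word -/
theorem word_T (σ : K →+* K) (hσ : ∀ x, σ (σ (σ x)) = x)
    (u w : ℕ → K) (m : ℕ) (hm : 0 < m)
    (hu : ∀ i < m, Iso σ (u i)) (hw : ∀ i < m, Iso σ (w i))
    (h1 : ∀ i < m, dl σ (u i) (w i) ≠ 0) (h2 : ∀ i, i + 1 < m → dl σ (w i) (u (i + 1)) ≠ 0) :
    ∃ T : K[X], T ≠ 0 ∧ T.natDegree ≤ m ∧ T = (-(-1) ^ m) * T.reflect m ∧ (Even m → T.eval 1 = 0) ∧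
      (Fm σ u w m - ((1 - X : K[X]) ^ m) • (1 : Matrix (Fin 3) (Fin 3) K[X])).det = ((1 - X) ^ m) ^ 2 * T := by
  have hE : ∀ a b : K, Iso σ a → Iso σ b → _ := fun a b ha hb => Em_eq σ hσ a b ha hb
  set F := Fm σ u w m with hF
  set F' := Fm' σ u w m with hF'
  set Δ : K[X] := (1 - X) ^ m with hΔ
  have hdet := det_sub_scalar F F' Δ (Fm_det σ hσ u w m hu hw) (Fm_adj σ hσ u w m hu hw)
  have hΔ1 : Δ.eval 1 = 0 := by simp [hΔ, hm.ne']
  have hne : F - Δ • (1 : Matrix (Fin 3) (Fin 3) K[X]) ≠ 0 := by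
    intro h0
    apply Fm_eval_one σ hσ hE (fun a b ha hb hd => dot_ne_zero σ hσ a b ha hb hd) u w m hm hu hw h1 h2
    have : F = Δ • (1 : Matrix (Fin 3) (Fin 3) K[X]) := sub_eq_zero.mp h0
    ext i j
    rw [← hF, this]
    simp [Matrix.map_apply, Matrix.smul_apply, hΔ1]
  have hshF : ∀ k, Shape σ (Fm σ u w k) := by
    intro k
    induction k with
    | zero => exact Shape_one σ
    | succ k ih => exact Shape_mul σ ih (Shape_mul σ (Shape_adjugate σ (Shape_Gm σ hσ _)) (Shape_Gm σ hσ _))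
  have hsh : Shape σ (F - Δ • (1 : Matrix (Fin 3) (Fin 3) K[X])) := by
    apply Shape_sub σ (hshF m)
    apply Shape_scalar
    simp [hΔ]
  have hdetne := Shape_det_ne_zero σ hσ hsh hne
  set T := F.trace - F'.trace with hT
  have hTne : T ≠ 0 := by
    intro h; rw [hdet, h, mul_zero] at hdetne; exact hdetne rfl
  have hrefl' : ∀ i j, F' i j = (-1) ^ m * (F j i).reflect m := Fm'_reflect σ hσ hE u w m hu hw
  have hdegF : ∀ i j, (F i j).natDegree ≤ m := fun i j => Fm_natDegree σ hσ hE u w m hu hw i j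
  have htrF' : F'.trace = (-1) ^ m * F.trace.reflect m := by
    simp only [Matrix.trace, Matrix.diag, Fin.sum_univ_three, hrefl', Polynomial.reflect_add]
    ring
  have htr : ∀ M : Matrix (Fin 3) (Fin 3) K[X], (∀ i j, (M i j).natDegree ≤ m) → M.trace.natDegree ≤ m := by
    intro M hM
    simp only [Matrix.trace, Matrix.diag, Fin.sum_univ_three]
    exact (Polynomial.natDegree_add_le_of_degree_le (Polynomial.natDegree_add_le_of_degree_le (hM _ _) (hM _ _)) (hM _ _))
  have hTdeg : T.natDegree ≤ m := by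
    have hF'deg : ∀ i j, (F' i j).natDegree ≤ m := by
      intro i j
      rw [hrefl']
      refine (Polynomial.natDegree_mul_le).trans ?_
      have h1 : ((-1 : K[X]) ^ m).natDegree = 0 := by
        rcases neg_one_pow_eq_or K[X] m with h | h <;> rw [h] <;> simp
      rw [h1, zero_add]
      have := Polynomial.natDegree_reflect_le (p := F j i) (N := m)
      exact this.trans (max_le le_rfl (hdegF j i))
    have := (Polynomial.natDegree_sub_le_of_le (htr F hdegF) (htr F' hF'deg))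
    rwa [max_self] at this
  have hrefl2 : (F.trace.reflect m).reflect m = F.trace := by
    simp
  have hreflT : T = (-(-1) ^ m) * T.reflect m := by
    have h1 : T.reflect m = F.trace.reflect m - F'.trace.reflect m := by
      rw [hT, Polynomial.reflect_sub]
    rw [h1, htrF']
    have h2 : ((-1 : K[X]) ^ m * F.trace.reflect m).reflect m = (-1) ^ m * F.trace := by
      rcases neg_one_pow_eq_or K[X] m with h | h
      · rw [h, one_mul, one_mul, hrefl2]
      · rw [h, neg_one_mul, neg_one_mul, Polynomial.reflect_neg, hrefl2]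
    rw [h2, hT, htrF']
    rcases neg_one_pow_eq_or K[X] m with h | h <;> rw [h] <;> ring
  refine ⟨T, hTne, hTdeg, hreflT, ?_, hdet⟩
  intro hev
  have : T.eval 1 = F.trace.eval 1 - F'.trace.eval 1 := by rw [hT, Polynomial.eval_sub]
  rw [this, htrF', hev.neg_one_pow, one_mul]
  have h3 : (F.trace.reflect m).eval 1 = F.trace.eval 1 :=
    eval_one_reflect _ _ (htr F hdegF)
  rw [h3, sub_self]

/-- palindromic divisibility by a power of `X` -/
theorem palindrome_X (T : K[X]) (m N : ℕ) (ε : K[X]) (hε : ε = 1 ∨ ε = -1) (hT : T ≠ 0)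
    (hdeg : T.natDegree ≤ m) (hrefl : T = ε * T.reflect m) (hdvd : X ^ N ∣ T) :
    2 * N ≤ m ∧ (T.eval 1 = 0 → 2 * N + 1 ≤ m) := by
  obtain ⟨S, hS⟩ := hdvd
  have hS0 : S ≠ 0 := by rintro rfl; exact hT (by rw [hS, mul_zero])
  have hNm : N ≤ m := by
    have : T.natDegree = N + S.natDegree := by rw [hS, natDegree_mul (pow_ne_zero _ X_ne_zero) hS0, natDegree_X_pow]
    omega
  -- degree of T at most m - N
  have hdeg2 : T.natDegree ≤ m - N := by
    have hc : ∀ j, m - N < j → T.coeff j = 0 := by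
      intro j hj
      rcases le_or_gt j m with hjm | hjm
      · have e1 : T.coeff j = (ε * T.reflect m).coeff j := by rw [← hrefl]
        have e2 : (T.reflect m).coeff j = T.coeff (m - j) := by
          rw [coeff_reflect, revAt_le hjm]
        have e3 : T.coeff (m - j) = 0 := by
          rw [hS, coeff_X_pow_mul', if_neg (by omega)]
        rcases hε with h | h
        · rw [e1, h, one_mul, e2, e3]
        · rw [e1, h, neg_one_mul, coeff_neg, e2, e3, neg_zero]
      · exact coeff_eq_zero_of_natDegree_lt (by omega)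
    rw [natDegree_le_iff_coeff_eq_zero]
    exact fun j hj => hc j hj
  have hdegS : T.natDegree = N + S.natDegree := by
    rw [hS, natDegree_mul (pow_ne_zero _ X_ne_zero) hS0, natDegree_X_pow]
  refine ⟨by omega, fun h1 => ?_⟩
  have hS1 : S.eval 1 = 0 := by
    rw [hS, eval_mul, eval_pow, eval_X, one_pow, one_mul] at h1; exact h1
  have : 1 ≤ S.natDegree := by
    by_contra hlt
    have h0 : S.natDegree = 0 := by omega
    rw [natDegree_eq_zero] at h0
    obtain ⟨c, rfl⟩ := h0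
    rw [eval_C] at hS1
    exact hS0 (by rw [hS1, C_0])
  omega

/-- z-adic main theorem on words -/
theorem main_wordX (σ : K →+* K) (hσ : ∀ x, σ (σ (σ x)) = x) (i : ℕ)
    (u w : ℕ → K) (m : ℕ) (hm : 0 < m)
    (hu : ∀ i < m, Iso σ (u i)) (hw : ∀ i < m, Iso σ (w i))
    (h1 : ∀ i < m, dl σ (u i) (w i) ≠ 0) (h2 : ∀ i, i + 1 < m → dl σ (w i) (u (i + 1)) ≠ 0)
    (B : Matrix (Fin 3) (Fin 3) K[X])
    (hB : Fm σ u w m - ((1 - X : K[X]) ^ m) • (1 : Matrix (Fin 3) (Fin 3) K[X]) = (Zm K) ^ i * B) :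
    2 * i + 1 ≤ m := by
  obtain ⟨T, hT0, hTd, hTr, hTe, hdet⟩ := word_T σ hσ u w m hm hu hw h1 h2
  have hX : X ^ i ∣ T := by
    have h3 : X ^ i ∣ ((1 - X : K[X]) ^ m) ^ 2 * T := by
      rw [← hdet, hB, det_mul, det_pow, Zm_det]
      exact Dvd.intro _ rfl
    have hc : IsCoprime (X : K[X]) (1 - X) := ⟨1, 1, by ring⟩
    exact ((hc.pow (m := i) (n := m)).pow_right (n := 2)).dvd_of_dvd_mul_left h3
  have hε : (-(-1 : K[X]) ^ m) = 1 ∨ (-(-1 : K[X]) ^ m) = -1 := by
    rcases neg_one_pow_eq_or K[X] m with h | h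
    · right; rw [h]
    · left; rw [h]; ring
  obtain ⟨hA, hB'⟩ := palindrome_X T m i _ hε hT0 hTd hTr hX
  rcases Nat.even_or_odd m with hev | hod
  · exact hB' (hTe hev)
  · obtain ⟨k, hk⟩ := hod
    omega

end Girth967
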