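import Mathlib
import Pool.Agent.H967G.ZMain
open Polynomial Matrix
namespace Girth967
variable {K : Type*} [Field K]

theorem Zm_map (σ : K →+* K) : (Zm K).map (Polynomial.map σ) = Zm K := by
  ext i j : 2
  fin_cases i <;> fin_cases j <;> simp [Zm]

theorem Zm_cube : (Zm K) ^ 3 = (X : K[X]) • (1 : Matrix (Fin 3) (Fin 3) K[X]) := by
  have h : (Zm K) ^ 3 = Zm K * Zm K * Zm K := by rw [pow_succ, pow_two]
  rw [h]
  ext i j : 2
  fin_cases i <;> fin_cases j <;> simp [Zm, Matrix.mul_apply, Fin.sum_univ_three]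

theorem Shape_map (σ : K →+* K) {A : Matrix (Fin 3) (Fin 3) K[X]} (hA : Shape σ A) :
    Shape σ (A.map (Polynomial.map σ)) := by
  unfold Shape at *
  have h := congrArg (fun M : Matrix (Fin 3) (Fin 3) K[X] => M.map (Polynomial.mapRingHom σ)) hA
  simp only [Matrix.map_mul] at h
  have hz : (Zm K).map (Polynomial.mapRingHom σ) = Zm K := Zm_map σ
  rw [hz] at h
  exact h

theorem Shape_comm_one (σ : K →+* K) (hσ : ∀ x, σ (σ (σ x)) = x) {A : Matrix (Fin 3) (Fin 3) K[X]} (hA : Shape σ A) :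
    A * Zm K = Zm K * (A.map (Polynomial.map σ)).map (Polynomial.map σ) := by
  have h := Shape_map σ (Shape_map σ hA)
  unfold Shape at h
  rw [h]
  congr 1
  ext i j : 2
  simp only [Matrix.map_apply, Polynomial.map_map]
  have h2 : σ.comp (σ.comp σ) = RingHom.id K := by ext x; simp [hσ]
  rw [h2, Polynomial.map_id]

theorem Shape_comm (σ : K →+* K) (hσ : ∀ x, σ (σ (σ x)) = x) (i : ℕ) :
    ∀ {A : Matrix (Fin 3) (Fin 3) K[X]}, Shape σ A → ∃ A' : Matrix (Fin 3) (Fin 3) K[X], A * Zm K ^ i = Zm K ^ i * A' := by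
  induction i with
  | zero => intro A _; exact ⟨A, by simp⟩
  | succ i ih =>
    intro A hA
    obtain ⟨A', hA'⟩ := ih (Shape_map σ (Shape_map σ hA))
    refine ⟨A', ?_⟩
    rw [pow_succ', ← Matrix.mul_assoc, Shape_comm_one σ hσ hA, Matrix.mul_assoc, hA', Matrix.mul_assoc]

/-- the congruence subgroup modulo `z^i` -/
noncomputable def ZG (σ : K →+* K) (hσ : ∀ x, σ (σ (σ x)) = x) (r i : ℕ) : Subgroup (HG σ (X : K[X]) r) where
  carrier := {M | ∃ B : Matrix (Fin 3) (Fin 3) K[X], (M.1.1 : Matrix (Fin 3) (Fin 3) (RQ (X : K[X]) r)) = (1 + Zm K ^ i * B).map (mkQ X r)}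
  mul_mem' := by
    rintro M N ⟨A, hM⟩ ⟨B, hN⟩
    refine ⟨A + B + A * Zm K ^ i * B, ?_⟩
    have h1 : (M * N).1.1 = M.1.1 * N.1.1 := rfl
    rw [h1, hM, hN, ← Matrix.map_mul]
    congr 1
    noncomm_ring
  one_mem' := ⟨0, by
    have h1 : (1 : HG σ (X : K[X]) r).1.1 = (1 : Matrix (Fin 3) (Fin 3) (RQ (X : K[X]) r)) := rfl
    rw [h1, Matrix.mul_zero, add_zero]
    exact (Matrix.map_one (mkQ X r) (map_zero _) (map_one _)).symm⟩
  inv_mem' := by
    rintro M ⟨B, hM⟩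
    obtain ⟨A', hA', hMA⟩ := M⁻¹.2
    obtain ⟨A'', hA''⟩ := Shape_comm σ hσ i hA'
    refine ⟨-(A'' * B), ?_⟩
    have h1 : M⁻¹.1.1 * M.1.1 = 1 := by
      have : M⁻¹ * M = 1 := inv_mul_cancel M
      exact congrArg (fun t : HG σ (X : K[X]) r => t.1.1) this
    have hMA' : M⁻¹.1.1 = A'.map (mkQ X r) := hMA
    have h2 : A'.map (mkQ X r) * (1 + Zm K ^ i * B).map (mkQ X r) = 1 := by rw [← hMA', ← hM]; exact h1
    rw [← Matrix.map_mul, Matrix.mul_add, Matrix.mul_one, ← Matrix.mul_assoc, hA'', Matrix.map_add _ (map_add _)] at h2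
    rw [hMA', eq_sub_of_add_eq h2, Matrix.mul_neg, ← sub_eq_add_neg, Matrix.map_sub _ (map_sub _), Matrix.mul_assoc]
    congr 1
    exact (Matrix.map_one (mkQ X r) (map_zero _) (map_one _)).symm

theorem ZG_normal (σ : K →+* K) (hσ : ∀ x, σ (σ (σ x)) = x) (r i : ℕ) : (ZG σ hσ r i).Normal := by
  constructor
  rintro M ⟨B, hM⟩ g
  obtain ⟨A, hA, hgA⟩ := g.2
  obtain ⟨A', hA', hgA'⟩ := g⁻¹.2
  obtain ⟨A'', hA''⟩ := Shape_comm σ hσ i hA
  refine ⟨A'' * B * A', ?_⟩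
  have h1 : (g * M * g⁻¹).1.1 = g.1.1 * M.1.1 * g⁻¹.1.1 := rfl
  have h2 : g.1.1 * g⁻¹.1.1 = 1 := by
    have : g * g⁻¹ = 1 := mul_inv_cancel g
    exact congrArg (fun t : HG σ (X : K[X]) r => t.1.1) this
  have hgA2 : g.1.1 = A.map (mkQ X r) := hgA
  have hgA2' : g⁻¹.1.1 = A'.map (mkQ X r) := hgA'
  rw [h1, hM, Matrix.map_add _ (map_add _), Matrix.mul_add, Matrix.add_mul]
  have h3 : (1 : Matrix (Fin 3) (Fin 3) K[X]).map (mkQ X r) = 1 := Matrix.map_one (mkQ X r) (map_zero _) (map_one _)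
  rw [h3, Matrix.mul_one, h2, Matrix.map_add _ (map_add _), h3, hgA2, hgA2', ← Matrix.map_mul, ← Matrix.map_mul]
  congr 2
  rw [← Matrix.mul_assoc, hA'']
  simp only [Matrix.mul_assoc]

end Girth967
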