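import Mathlib
import Pool.Agent.H967G.ZGroup
open Polynomial Matrix
namespace Girth967
variable {K : Type*} [Field K]

/-- the elements `1 + X^(r-1) (b₁ z + b₂ z²)` -/
noncomputable def zel (σ : K →+* K) (r : ℕ) (b₁ b₂ : K) : Matrix (Fin 3) (Fin 3) K[X] :=
  1 + (X : K[X]) ^ (r - 1) • shp σ ![0, C b₁, C b₂]

theorem zel_shape (σ : K →+* K) (hσ : ∀ x, σ (σ (σ x)) = x) (r : ℕ) (b₁ b₂ : K) : Shape σ (zel σ r b₁ b₂) := by
  have h : zel σ r b₁ b₂ = 1 - (-(X : K[X]) ^ (r - 1)) • shp σ ![0, C b₁, C b₂] := by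
    rw [zel, neg_smul, sub_neg_eq_add]
  rw [h]
  exact Shape_sub σ (Shape_one σ) (Shape_smul σ _ (by simp) (Shape_shp σ hσ _))

theorem zel_det (σ : K →+* K) (r : ℕ) (hr : 1 ≤ r) (b₁ b₂ : K) : X ^ r ∣ (zel σ r b₁ b₂).det - 1 := by
  have e : (zel σ r b₁ b₂) = !![1, X ^ (r - 1) * C b₁, X ^ (r - 1) * C b₂;
      X ^ (r - 1) * (X * C (σ b₂)), 1, X ^ (r - 1) * C (σ b₁);
      X ^ (r - 1) * (X * C (σ (σ b₁))), X ^ (r - 1) * (X * C (σ (σ b₂))), 1] := by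
    ext i j : 2
    fin_cases i <;> fin_cases j <;> simp [zel, shp]
  rw [e, det_fin_three]
  have h : (X : K[X]) ^ r = X ^ (r - 1) * X := by rw [← pow_succ]; congr 1; omega
  rw [h]
  refine ⟨X ^ (r - 1) * (-(C (σ b₁) * C (σ (σ b₂))) - C b₁ * C (σ b₂) + X ^ (r - 1) * (C b₁ * C (σ b₁) * C (σ (σ b₁)))
    + X ^ (r - 1) * X * (C b₂ * C (σ b₂) * C (σ (σ b₂))) - C b₂ * C (σ (σ b₁))), ?_⟩
  simp only [Matrix.of_apply, Matrix.cons_val', Matrix.cons_val_zero, Matrix.cons_val_one, Matrix.cons_val_fin_one,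
    Matrix.cons_val]
  ring

theorem zel_ideal1 (σ : K →+* K) (hσ : ∀ x, σ (σ (σ x)) = x) (r : ℕ) (hr : 1 ≤ r) (b₁ b₂ : K) :
    ∃ B : Matrix (Fin 3) (Fin 3) K[X], zel σ r b₁ b₂ = 1 + Zm K ^ (3 * r - 2) * B := by
  refine ⟨shp σ ![C (σ (σ b₁)), C (σ (σ b₂)), 0], ?_⟩
  have h1 : 3 * r - 2 = 3 * (r - 1) + 1 := by omega
  rw [h1, pow_succ, pow_mul, Zm_cube, _root_.smul_pow, one_pow, zel]
  congr 1
  rw [Matrix.smul_mul, Matrix.one_mul, Matrix.smul_mul]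
  congr 1
  ext i j : 2
  fin_cases i <;> fin_cases j <;> simp [shp, Zm, Matrix.mul_apply, Fin.sum_univ_three, hσ]

theorem zel_ideal2 (σ : K →+* K) (hσ : ∀ x, σ (σ (σ x)) = x) (r : ℕ) (hr : 1 ≤ r) (b₂ : K) :
    ∃ B : Matrix (Fin 3) (Fin 3) K[X], zel σ r 0 b₂ = 1 + Zm K ^ (3 * r - 1) * B := by
  refine ⟨shp σ ![C (σ b₂), 0, 0], ?_⟩
  have h1 : 3 * r - 1 = 3 * (r - 1) + 2 := by omega
  rw [h1, pow_add, pow_mul, Zm_cube, _root_.smul_pow, one_pow, zel]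
  congr 1
  rw [Matrix.smul_mul, Matrix.one_mul, Matrix.smul_mul]
  congr 1
  ext i j : 2
  fin_cases i <;> fin_cases j <;> simp [shp, Zm, pow_two, Matrix.mul_apply, Fin.sum_univ_three, hσ]

theorem mkQ_eq_iff (Q : K[X]) (n : ℕ) (a b : K[X]) : mkQ Q n a = mkQ Q n b ↔ Q ^ n ∣ a - b := by
  rw [mkQ, Ideal.Quotient.eq, Ideal.mem_span_singleton]

theorem zel_inj (σ : K →+* K) (r : ℕ) (hr : 1 ≤ r) (b₁ b₂ c₁ c₂ : K)
    (h : (zel σ r b₁ b₂).map (mkQ X r) = (zel σ r c₁ c₂).map (mkQ X r)) : b₁ = c₁ ∧ b₂ = c₂ := by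
  have key : ∀ b c : K, mkQ X r (X ^ (r - 1) * C b) = mkQ X r (X ^ (r - 1) * C c) → b = c := by
    intro b c hbc
    rw [mkQ_eq_iff] at hbc
    have h1 : (X : K[X]) ^ r = X ^ (r - 1) * X := by rw [← pow_succ]; congr 1; omega
    have h2 : (X : K[X]) ^ (r - 1) * C b - X ^ (r - 1) * C c = X ^ (r - 1) * C (b - c) := by rw [C_sub]; ring
    rw [h1, h2] at hbc
    have h3 := (mul_dvd_mul_iff_left (pow_ne_zero (r - 1) (X_ne_zero (R := K)))).mp hbc
    rw [X_dvd_iff, coeff_C_zero] at h3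
    exact sub_eq_zero.mp h3
  constructor
  · apply key
    have := congrFun (congrFun h 0) 1
    simpa [zel, shp] using this
  · apply key
    have := congrFun (congrFun h 0) 2
    simpa [zel, shp] using this

/-- the element of the group attached to `b` -/
noncomputable def zgel (σ : K →+* K) (hσ : ∀ x, σ (σ (σ x)) = x) (r : ℕ) (hr : 1 ≤ r) (b : K × K) : HG σ (X : K[X]) r :=
  ⟨⟨(zel σ r b.1 b.2).map (mkQ X r), by
      have h1 := RingHom.map_det (mkQ (X : K[X]) r) (zel σ r b.1 b.2)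
      rw [RingHom.mapMatrix_apply] at h1
      rw [← h1, ← map_one (mkQ (X : K[X]) r), mkQ_eq_iff]
      exact zel_det σ r hr b.1 b.2⟩, ⟨zel σ r b.1 b.2, zel_shape σ hσ r b.1 b.2, rfl⟩⟩

theorem zgel_inj (σ : K →+* K) (hσ : ∀ x, σ (σ (σ x)) = x) (r : ℕ) (hr : 1 ≤ r) :
    Function.Injective (zgel σ hσ r hr) := by
  intro b c h
  have h1 : (zel σ r b.1 b.2).map (mkQ X r) = (zel σ r c.1 c.2).map (mkQ X r) :=
    congrArg (fun t : HG σ (X : K[X]) r => t.1.1) h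
  obtain ⟨h2, h3⟩ := zel_inj σ r hr _ _ _ _ h1
  exact Prod.ext h2 h3

/-- lower bound for the order of the congruence subgroup -/
theorem card_ZG_ge [Fintype K] (σ : K →+* K) (hσ : ∀ x, σ (σ (σ x)) = x) (r i : ℕ) (hr : 1 ≤ r) (hi : i ≤ 3 * r)
    (hi2 : 3 * r ≤ i + 2) [Finite (HG σ (X : K[X]) r)] :
    (Fintype.card K) ^ (3 * r - i) ≤ Nat.card (ZG σ hσ r i) := by
  have h3 : 3 * r - i = 0 ∨ 3 * r - i = 1 ∨ 3 * r - i = 2 := by omega
  rcases h3 with h | h | h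
  · rw [h, pow_zero]; exact Nat.card_pos
  · rw [h, pow_one]
    have hi' : i = 3 * r - 1 := by omega
    let f : K → ZG σ hσ r i := fun b => ⟨zgel σ hσ r hr (0, b), by
      obtain ⟨B, hB⟩ := zel_ideal2 σ hσ r hr b
      exact ⟨B, by rw [hi', ← hB]; rfl⟩⟩
    have hf : Function.Injective f := by
      intro b c hbc
      have := zgel_inj σ hσ r hr (congrArg Subtype.val hbc)
      exact (Prod.ext_iff.mp this).2
    have := Nat.card_le_card_of_injective f hf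
    rwa [Nat.card_eq_fintype_card] at this
  · rw [h]
    have hi' : i = 3 * r - 2 := by omega
    let f : K × K → ZG σ hσ r i := fun b => ⟨zgel σ hσ r hr b, by
      obtain ⟨B, hB⟩ := zel_ideal1 σ hσ r hr b.1 b.2
      exact ⟨B, by rw [hi', ← hB]; rfl⟩⟩
    have hf : Function.Injective f := by
      intro b c hbc
      exact zgel_inj σ hσ r hr (congrArg Subtype.val hbc)
    have := Nat.card_le_card_of_injective f hf
    rw [Nat.card_eq_fintype_card, Fintype.card_prod] at this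
    rwa [pow_two]

end Girth967
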