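import Mathlib
import Pool.Agent.H967G.ZFamily
import Pool.Agent.H967G.S.E1a
import Pool.Agent.H967G.S.E1b
import Pool.Agent.H967G.S.E2

namespace Girth967

/-- `a(i) = 3 i - ⌈i/3⌉` -/
def aexp (i : ℕ) : ℕ := 3 * i - (i + 2) / 3

theorem aexp_pos {i : ℕ} (hi : 1 ≤ i) : 1 ≤ aexp i := by
  unfold aexp; omega

/-- vertices at most `4 p^a(i)` -/
theorem family_card (q : ℕ) (hq : IsPrimePow q) (i : ℕ) (hi : 1 ≤ i) :
    ∃ (V : Type) (_ : Fintype V) (_ : DecidableEq V) (G : SimpleGraph V) (_ : DecidableRel G.Adj),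
      Nonempty V ∧ G.IsRegularOfDegree (q + 1) ∧ ((4 * i + 2 : ℕ) : ℕ∞) ≤ G.egirth ∧
      Fintype.card V ≤ 4 * q ^ aexp i := by
  obtain ⟨V, i1, i2, G, i3, hV, h1, h2, h3⟩ := familyZ q hq i hi
  refine ⟨V, i1, i2, G, i3, hV, h1, h2, ?_⟩
  have hq2 := hq.two_le
  have e : 3 * i + 1 - (i + 2) / 3 = aexp i + 1 := by unfold aexp; omega
  rw [e, pow_succ] at h3
  have h4 : q ≤ 2 * (q - 1) := by omega
  have h5 : (q - 1) * Fintype.card V ≤ (q - 1) * (4 * q ^ aexp i) := by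
    calc (q - 1) * Fintype.card V ≤ 2 * (q ^ aexp i * q) := h3
      _ ≤ 2 * (q ^ aexp i * (2 * (q - 1))) := by gcongr
      _ = (q - 1) * (4 * q ^ aexp i) := by ring
  exact Nat.le_of_mul_le_mul_left h5 (by omega)

theorem dense_graphs (k : ℕ) (hk : 1 ≤ k) :
    ∃ c : ℝ, 0 < c ∧ ∃ N : ℕ, ∀ n : ℕ, N ≤ n → ∃ G : SimpleGraph (Fin n),
      ((2 * k : ℕ) : ℕ∞) < G.egirth ∧
      c * (n : ℝ) ^ ((1 : ℝ) + 1 / (aexp ((k + 1) / 2) : ℝ)) ≤ (G.edgeSet.ncard : ℝ) := by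
  classical
  set i := (k + 1) / 2 with hi
  have hi1 : 1 ≤ i := by omega
  -- f n = maximal number of edges
  let S : ℕ → Set ℕ := fun n => {m | ∃ G : SimpleGraph (Fin n), ((2 * k : ℕ) : ℕ∞) < G.egirth ∧ G.edgeSet.ncard = m}
  have hbdd : ∀ n, BddAbove (S n) := by
    intro n
    refine ⟨Nat.card (Sym2 (Fin n)), ?_⟩
    rintro m ⟨G, -, rfl⟩
    rw [← Nat.card_coe_set_eq]
    exact Nat.card_le_card_of_injective (Subtype.val) Subtype.val_injective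
  have hne : ∀ n, (S n).Nonempty := fun n => ⟨_, ⊥, by
    rw [SimpleGraph.egirth_bot]; exact ENat.natCast_lt_top _, rfl⟩
  obtain ⟨c, hc, N, h⟩ := padding_analytic (aexp i) 4 (aexp_pos hi1) (fun n => sSup (S n)) (by
    intro p hp n hn
    obtain ⟨V, i1, i2, G, i3, hV, h1, h2, h3⟩ := family_card p hp.isPrimePow i hi1
    have h4 : ((2 * k : ℕ) : ℕ∞) < G.egirth := by
      refine lt_of_lt_of_le ?_ h2
      have : 2 * k < 4 * i + 2 := by omega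
      exact_mod_cast this
    obtain ⟨G', hG', hE⟩ := copies n k (p + 1) V G hV h1 h4 (h3.trans hn)
    refine hE.trans (Nat.mul_le_mul_left 4 ?_)
    exact le_csSup (hbdd n) ⟨G', hG', rfl⟩)
  refine ⟨c, hc, N, fun n hn => ?_⟩
  obtain ⟨G, hG, hE⟩ := Nat.sSup_mem (hne n) (hbdd n)
  refine ⟨G, hG, ?_⟩
  rw [hE]
  exact h n hn

end Girth967
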